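import Pool.Agent.Q75.BM.Stm

/-! Project BM (helper75), job AV2: the mean of `log |M e_β|`. -/

set_option autoImplicit false

namespace Pool.Agent.Q187.BM

open Filter Topology MeasureTheory Set
open Pool.Agent.Q75.BM

/-- the sum of the squares of the entries -/
noncomputable def tt (M : SL) : ℝ := ∑ i, ∑ j, ‖M.1 i j‖ ^ 2

/-- the coordinates of `M e_β` -/
noncomputable def cr (M : SL) (i : Fin 2) (β : ℝ) : ℂ := ∑ j, M.1 i j * (ev β j : ℂ)

theorem ev0 (β : ℝ) : ev β 0 = Real.cos β := rfl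

theorem ev1 (β : ℝ) : ev β 1 = Real.sin β := rfl

theorem cr_le (M : SL) (i : Fin 2) (β : ℝ) : ‖cr M i β‖ ^ 2 ≤ ∑ j, ‖M.1 i j‖ ^ 2 := by
  have h0 : ‖cr M i β‖ ≤ ‖M.1 i 0‖ * |Real.cos β| + ‖M.1 i 1‖ * |Real.sin β| := by
    unfold cr
    rw [Fin.sum_univ_two, ev0, ev1]
    refine (norm_add_le _ _).trans ?_
    rw [norm_mul, norm_mul, Complex.norm_real, Complex.norm_real, Real.norm_eq_abs, Real.norm_eq_abs]
  rw [Fin.sum_univ_two]
  have h1 : |Real.cos β| ^ 2 + |Real.sin β| ^ 2 = 1 := by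
    rw [sq_abs, sq_abs]
    exact Real.cos_sq_add_sin_sq β
  have h2 : 0 ≤ ‖cr M i β‖ := norm_nonneg _
  set a := ‖M.1 i 0‖
  set b := ‖M.1 i 1‖
  set c := |Real.cos β|
  set s := |Real.sin β|
  have h3 : ‖cr M i β‖ ^ 2 ≤ (a * c + b * s) ^ 2 := by gcongr
  have h4 : (a * c + b * s) ^ 2 + (a * s - b * c) ^ 2 = (a ^ 2 + b ^ 2) * (c ^ 2 + s ^ 2) := by ring
  rw [h1, mul_one] at h4
  nlinarith [sq_nonneg (a * s - b * c)]

theorem vn_eq (M : SL) (β : ℝ) : vn M β = Real.sqrt (∑ i, ‖cr M i β‖ ^ 2) := rfl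

theorem pos (M : SL) (β : ℝ) : 0 < ∑ i, ‖cr M i β‖ ^ 2 := by
  rw [Fin.sum_univ_two]
  by_contra h
  push Not at h
  have h0 : ‖cr M 0 β‖ ^ 2 = 0 := by nlinarith [sq_nonneg ‖cr M 0 β‖, sq_nonneg ‖cr M 1 β‖]
  have h1 : ‖cr M 1 β‖ ^ 2 = 0 := by nlinarith [sq_nonneg ‖cr M 0 β‖, sq_nonneg ‖cr M 1 β‖]
  have e0 : cr M 0 β = 0 := by
    rw [sq_eq_zero_iff, norm_eq_zero] at h0
    exact h0
  have e1 : cr M 1 β = 0 := by
    rw [sq_eq_zero_iff, norm_eq_zero] at h1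
    exact h1
  unfold cr at e0 e1
  rw [Fin.sum_univ_two, ev0, ev1] at e0 e1
  have hd := M.2
  rw [Matrix.det_fin_two] at hd
  have hc : ((Real.cos β : ℝ) : ℂ) = 0 := by
    linear_combination (-((Real.cos β : ℝ) : ℂ)) * hd + (M.1 1 1) * e0 - (M.1 0 1) * e1
  have hs : ((Real.sin β : ℝ) : ℂ) = 0 := by
    linear_combination (-((Real.sin β : ℝ) : ℂ)) * hd + (M.1 0 0) * e1 - (M.1 1 0) * e0
  have hc' : Real.cos β = 0 := Complex.ofReal_eq_zero.1 hc
  have hs' : Real.sin β = 0 := Complex.ofReal_eq_zero.1 hs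
  have := Real.cos_sq_add_sin_sq β
  rw [hc', hs'] at this
  norm_num at this

theorem part1 (M : SL) (β : ℝ) : 0 < vn M β ∧ vn M β ≤ hs M := by
  refine ⟨Real.sqrt_pos.2 (pos M β), Real.sqrt_le_sqrt ?_⟩
  exact Finset.sum_le_sum fun i _ => cr_le M i β

theorem cont (M : SL) : Continuous fun β : ℝ => Real.log (vn M β) := by
  refine Continuous.log ?_ fun β => (part1 M β).1.ne'
  refine Real.continuous_sqrt.comp ?_
  refine continuous_finset_sum _ fun i _ => ?_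
  refine Continuous.pow (Continuous.norm ?_) 2
  rw [show (fun β : ℝ => ∑ j, M.1 i j * (ev β j : ℂ)) =
    fun β : ℝ => M.1 i 0 * ((Real.cos β : ℝ) : ℂ) + M.1 i 1 * ((Real.sin β : ℝ) : ℂ) by
      funext β
      rw [Fin.sum_univ_two, ev0, ev1]]
  exact (continuous_const.mul (Complex.continuous_ofReal.comp Real.continuous_cos)).add
    (continuous_const.mul (Complex.continuous_ofReal.comp Real.continuous_sin))

theorem t_AV2 : S_AV1 → S_AV2 := by
  intro hAV M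
  refine ⟨part1 M, ?_⟩
  have hT : 0 < tt M := lt_of_lt_of_le (pos M 0) (Finset.sum_le_sum fun i _ => cr_le M i 0)
  obtain ⟨i, hi⟩ : ∃ i : Fin 2, tt M / 2 ≤ ∑ j, ‖M.1 i j‖ ^ 2 := by
    by_contra h
    push Not at h
    have h0 := h 0
    have h1 := h 1
    have h2 : tt M = ∑ j, ‖M.1 0 j‖ ^ 2 + ∑ j, ‖M.1 1 j‖ ^ 2 := by
      unfold tt
      rw [Fin.sum_univ_two]
    linarith
  set z : Fin 2 → ℂ := fun j => M.1 i j with hz
  have hSz : 0 < ∑ j, ‖z j‖ ^ 2 := lt_of_lt_of_le (by linarith) hi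
  have hz0 : z ≠ 0 := by
    intro h
    rw [h] at hSz
    simp at hSz
  obtain ⟨a1, a2, _, a4⟩ := hAV z hz0
  have hcr : ∀ α : ℝ, ∑ j, (ev α j : ℂ) * z j = cr M i α := fun α =>
    Finset.sum_congr rfl fun j _ => mul_comm _ _
  have hint : IntervalIntegrable (fun β : ℝ => Real.log (vn M β)) volume 0 (2 * Real.pi) :=
    (cont M).intervalIntegrable _ _
  have hmono : ∫ α in (0 : ℝ)..(2 * Real.pi), Real.log ‖∑ j, (ev α j : ℂ) * z j‖ ≤
      ∫ β in (0 : ℝ)..(2 * Real.pi), Real.log (vn M β) := by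
    refine intervalIntegral.integral_mono_ae (by positivity) a1 hint ?_
    filter_upwards [a4] with α hα
    rw [hcr α] at hα ⊢
    refine Real.log_le_log (norm_pos_iff.2 hα) ?_
    rw [vn_eq]
    refine Real.le_sqrt_of_sq_le ?_
    exact Finset.single_le_sum (f := fun i => ‖cr M i α‖ ^ 2) (fun i _ => sq_nonneg _)
      (Finset.mem_univ i)
  refine le_trans ?_ (a2.trans hmono)
  have h1 : Real.log (hs M) = Real.log (tt M) / 2 := Real.log_sqrt hT.le
  have h2 : Real.log (Real.sqrt (∑ j, ‖z j‖ ^ 2)) = Real.log (∑ j, ‖z j‖ ^ 2) / 2 :=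
    Real.log_sqrt hSz.le
  have h3 : Real.log (tt M) - Real.log 2 ≤ Real.log (∑ j, ‖z j‖ ^ 2) := by
    rw [← Real.log_div hT.ne' (by norm_num)]
    exact Real.log_le_log (by linarith) hi
  have h4 : Real.log 2 < 1 := by
    have := Real.log_two_lt_d9
    linarith
  have h5 : Real.log (hs M) - 2 ≤ Real.log (Real.sqrt (∑ j, ‖z j‖ ^ 2)) - 1 := by
    rw [h1, h2]
    linarith
  have h6 : (0 : ℝ) ≤ 2 * Real.pi := by positivity
  exact mul_le_mul_of_nonneg_left h5 h6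

end Pool.Agent.Q187.BM
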